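import Pool.Agent.Helper45.CX.Boxes
import Pool.Agent.Helper69.CX.Check
import Pool.Agent.Helper69.CX.Link
import Pool.Agent.Helper66.AF.Sym

/-!
# Project CX (MP_f22a19_gt): the fans of all vertices from kernel checks

`T : List (ST ℕ)` is the list of the signed facets on the codes `0, ..., n - 1` and `TF n T` the
complex on `Fin n`. For every vertex there is a certificate (list of neighbours with boxes, and a
vector in the cone of the first triangle of its link); the fans follow from `chkV` for all vertices.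
The closedness of the links is a consequence of the pairing of the faces.
-/

set_option autoImplicit false

namespace Pool.CX

open Pool.Agent.Helper66.AF Helper69.CX
open Pool.Agent.Helper1.CX (Ball BVec Box checkGeo checkGeo_sound mapTri flatMap_mapTri)

/-- the triangle opposite to `w` in a facet -/
def linkOne (w : ℕ) (t : ST ℕ) : List (ℕ × ℕ × ℕ) :=
  bif Nat.beq t.2.1 w then
    [bif t.1 then (t.2.2.1, t.2.2.2.1, t.2.2.2.2) else (t.2.2.1, t.2.2.2.2, t.2.2.2.1)]
  else bif Nat.beq t.2.2.1 w then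
    [bif t.1 then (t.2.1, t.2.2.2.2, t.2.2.2.1) else (t.2.1, t.2.2.2.1, t.2.2.2.2)]
  else bif Nat.beq t.2.2.2.1 w then
    [bif t.1 then (t.2.2.2.2, t.2.1, t.2.2.1) else (t.2.2.2.2, t.2.2.1, t.2.1)]
  else bif Nat.beq t.2.2.2.2 w then
    [bif t.1 then (t.2.2.2.1, t.2.2.1, t.2.1) else (t.2.2.2.1, t.2.1, t.2.2.1)]
  else []

/-- the link of `w`, on the codes -/
def linkN (w : ℕ) (T : List (ST ℕ)) : List (ℕ × ℕ × ℕ) := T.flatMap (linkOne w)

theorem linkOne_gen {V : Type*} [DecidableEq V] (f : ℕ → V) (v : V) (w : ℕ) (s : Bool)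
    (a b c d : ℕ) (h1 : a < b) (h2 : b < c) (h3 : c < d) (ka : f a = v ↔ a = w)
    (kb : f b = v ↔ b = w) (kc : f c = v ↔ c = w) (kd : f d = v ↔ d = w) :
    linkOf v (orient (mapST f (s, a, b, c, d))) =
      (linkOne w (s, a, b, c, d)).map (mapTri f) := by
  have ht : ∀ i : ℕ, i = w → Nat.beq i w = true := fun i h => by rw [h]; exact Nat.beq_refl _
  have hF : ∀ i : ℕ, i ≠ w → Nat.beq i w = false := fun i h =>
    Bool.eq_false_iff.2 fun h' => h (Nat.eq_of_beq_eq_true h')
  by_cases ha : a = w
  · have ka := ka.2 ha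
    have kb := fun h => (show b ≠ w by omega) (kb.1 h)
    have kc := fun h => (show c ≠ w by omega) (kc.1 h)
    have kd := fun h => (show d ≠ w by omega) (kd.1 h)
    have e1 := ht a ha
    cases s
    · simp only [linkOf, orient, mapST, Bool.false_eq_true, if_false, if_neg kb, if_pos ka,
        if_neg kc, if_neg kd, linkOne, e1, cond_true, cond_false, List.map_cons, List.map_nil,
        mapTri, List.nil_append, List.append_nil]
    · simp only [linkOf, orient, mapST, if_true, if_neg kb, if_pos ka,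
        if_neg kc, if_neg kd, linkOne, e1, cond_true, List.map_cons, List.map_nil,
        mapTri, List.append_nil]
  · have ka := fun h => ha (ka.1 h)
    have e1 := hF a ha
    by_cases hb : b = w
    · have kb := kb.2 hb
      have kc := fun h => (show c ≠ w by omega) (kc.1 h)
      have kd := fun h => (show d ≠ w by omega) (kd.1 h)
      have e2 := ht b hb
      cases s
      · simp only [linkOf, orient, mapST, Bool.false_eq_true, if_false, if_pos kb, if_neg ka,
          if_neg kc, if_neg kd, linkOne, e1, e2, cond_true, cond_false, List.map_cons,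
          List.map_nil, mapTri, List.append_nil]
      · simp only [linkOf, orient, mapST, if_true, if_pos kb, if_neg ka,
          if_neg kc, if_neg kd, linkOne, e1, e2, cond_true, cond_false, List.map_cons,
          List.map_nil, mapTri, List.nil_append, List.append_nil]
    · have kb := fun h => hb (kb.1 h)
      have e2 := hF b hb
      by_cases hc : c = w
      · have kc := kc.2 hc
        have kd := fun h => (show d ≠ w by omega) (kd.1 h)
        have e3 := ht c hc
        cases s
        · simp only [linkOf, orient, mapST, Bool.false_eq_true, if_false, if_neg kb, if_neg ka,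
            if_pos kc, if_neg kd, linkOne, e1, e2, e3, cond_true, cond_false, List.map_cons,
            List.map_nil, mapTri, List.nil_append, List.append_nil]
        · simp only [linkOf, orient, mapST, if_true, if_neg kb, if_neg ka,
            if_pos kc, if_neg kd, linkOne, e1, e2, e3, cond_true, cond_false, List.map_cons,
            List.map_nil, mapTri, List.nil_append, List.append_nil]
      · have kc := fun h => hc (kc.1 h)
        have e3 := hF c hc
        by_cases hd : d = w
        · have kd := kd.2 hd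
          have e4 := ht d hd
          cases s
          · simp only [linkOf, orient, mapST, Bool.false_eq_true, if_false, if_neg kb, if_neg ka,
              if_neg kc, if_pos kd, linkOne, e1, e2, e3, e4, cond_true, cond_false, List.map_cons,
              List.map_nil, mapTri, List.nil_append]
          · simp only [linkOf, orient, mapST, if_true, if_neg kb, if_neg ka,
              if_neg kc, if_pos kd, linkOne, e1, e2, e3, e4, cond_true, cond_false, List.map_cons,
              List.map_nil, mapTri, List.nil_append]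
        · have kd := fun h => hd (kd.1 h)
          have e4 := hF d hd
          cases s
          · simp only [linkOf, orient, mapST, Bool.false_eq_true, if_false, if_neg kb, if_neg ka,
              if_neg kc, if_neg kd, linkOne, e1, e2, e3, e4, cond_false,
              List.map_nil, List.nil_append]
          · simp only [linkOf, orient, mapST, if_true, if_neg kb, if_neg ka,
              if_neg kc, if_neg kd, linkOne, e1, e2, e3, e4, cond_false,
              List.map_nil, List.nil_append]

theorem linkOne_spec {n : ℕ} [NeZero n] (w : Fin n) (t : ST ℕ)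
    (h : t.2.1 < t.2.2.1 ∧ t.2.2.1 < t.2.2.2.1 ∧ t.2.2.2.1 < t.2.2.2.2 ∧ t.2.2.2.2 < n) :
    linkOf w (orient (mapST (Fin.ofNat n) t)) = (linkOne w.1 t).map (mapTri (Fin.ofNat n)) := by
  obtain ⟨s, a, b, c, d⟩ := t
  obtain ⟨h1, h2, h3, h4⟩ := h
  simp only at h1 h2 h3 h4
  have key : ∀ i : ℕ, i < n → (Fin.ofNat n i = w ↔ i = w.1) := by
    intro i hi
    constructor
    · intro h
      rw [← h, Fin.val_ofNat, Nat.mod_eq_of_lt hi]
    · intro h
      apply Fin.ext
      rw [Fin.val_ofNat, Nat.mod_eq_of_lt hi, h]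
  exact linkOne_gen _ _ _ s a b c d h1 h2 h3 (key a (by omega)) (key b (by omega))
    (key c (by omega)) (key d (by omega))

theorem linkN_spec {n : ℕ} [NeZero n] {T : List (ST ℕ)} (hI : chkIncr n T = true) (w : Fin n) :
    link ((TF n T).map orient) w = (linkN w.1 T).map (mapTri (Fin.ofNat n)) := by
  unfold link TF linkN
  rw [List.map_map, List.flatMap_map, List.map_flatMap]
  apply List.flatMap_congr
  intro t ht
  exact linkOne_spec w t (chkIncr_spec hI t ht)

/-- the certificate of a vertex: its position in its own chart, its neighbours and a vector in the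
open cone of the first triangle of its link -/
structure VCert where
  p : Pt
  nbrs : List Nbr
  y : ℤ × ℤ × ℤ

/-- the neighbour fits with the tables -/
def Nbr.fit (n : ℕ) (lab : ℕ → ℕ → ℕ) (pos : ℕ → Pt) (fold : ℕ → ℕ) (side : ℕ → Bool) (w : ℕ)
    (e : Nbr) : Bool :=
  Nat.ble (e.code + 1) n && Nat.beq e.let' (lab (fold w) (fold e.code)) &&
    decide (e.pos = pos (fold e.code)) && (e.sig == (side w || side e.code))

/-- the test for one vertex -/
def chkV (n k : ℕ) (S : ℤ) (box : ℕ → ABox) (lab : ℕ → ℕ → ℕ) (pos : ℕ → Pt) (fold : ℕ → ℕ)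
    (side : ℕ → Bool) (T : List (ST ℕ)) (w : ℕ) (c : VCert) : Bool :=
  decide (c.p = pos (fold w)) && decide (0 < c.p.d) &&
    c.nbrs.all (fun e => e.ok k S box c.p && e.fit n lab pos fold side w) &&
    checkGeo (linkN w T) (c.nbrs.map fun e => (e.code, e.b)) c.y

theorem fanW {n : ℕ} [NeZero n] {T : List (ST ℕ)} (hI : chkIncr n T = true)
    (hC : Comb (TF n T)) {k : ℕ} {rels : List (ℕ × ℕ × ℕ)} {bds : List ℕ} {box : ℕ → ABox} {S : ℤ}
    (R : RealPoint k rels bds box (S : ℝ)) (hS : 0 < S) (lab : ℕ → ℕ → ℕ) (pos : ℕ → Pt)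
    (fold : ℕ → ℕ) (side : ℕ → Bool) (w : Fin n) (c : VCert)
    (h : chkV n k S box lab pos fold side T w.1 c = true) :
    IsFan (link ((TF n T).map orient) w) (pW (fun u u' => R.A (lab u u'))
      (fun u => (pos u).val) (fun v : Fin n => fold v.1) (fun v => side v.1) w) := by
  unfold chkV at h
  simp only [Bool.and_eq_true, decide_eq_true_eq, List.all_eq_true] at h
  obtain ⟨⟨⟨hp, hd⟩, hN⟩, hG⟩ := h
  obtain ⟨q, hq⟩ : ∃ q : Fin n → E3, q = pW (fun u u' => R.A (lab u u'))
      (fun u => (pos u).val) (fun v : Fin n => fold v.1) (fun v => side v.1) w := ⟨_, rfl⟩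
  rw [← hq]
  have hNb : ∀ e ∈ c.nbrs.map (fun e => (e.code, e.b)),
      BVec.PMem ((fun i => q (Fin.ofNat n i)) e.1) e.2 := by
    intro e' he'
    obtain ⟨e, he, rfl⟩ := List.mem_map.1 he'
    obtain ⟨h1, h2⟩ := hN e he
    unfold Nbr.fit at h2
    simp only [Bool.and_eq_true, decide_eq_true_eq, beq_iff_eq] at h2
    obtain ⟨⟨⟨h3, h4⟩, h5⟩, h6⟩ := h2
    have h3 : e.code < n := Nat.le_of_ble_eq_true h3
    have h4 : e.let' = lab (fold w.1) (fold e.code) := Nat.eq_of_beq_eq_true h4
    have hv : (Fin.ofNat n e.code).1 = e.code := by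
      rw [Fin.val_ofNat, Nat.mod_eq_of_lt h3]
    have e1 : q (Fin.ofNat n e.code) = e.val R.A c.p := by
      rw [hq]
      simp only [pW, pN, Nbr.val, hv, hp]
      rw [h6, ← h4, ← h5]
    simp only [e1]
    exact Nbr.ok_sound R hS hd h1
  obtain ⟨g1, y, t, L', hL, g2, g3⟩ := checkGeo_sound (p := fun i => q (Fin.ofNat n i)) hNb hG
  obtain ⟨ks, -, hks⟩ := hC.pairs
  refine ⟨?_, closed_of_pairs hks w, ?_⟩
  · rw [linkN_spec hI]
    intro t ht
    obtain ⟨s, hs, rfl⟩ := List.mem_map.1 ht
    exact g1 s hs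
  · rw [linkN_spec hI, hL]
    refine ⟨y, mapTri (Fin.ofNat n) t, L'.map (mapTri (Fin.ofNat n)), rfl, g2, ?_⟩
    intro s hs
    obtain ⟨s', hs', rfl⟩ := List.mem_map.1 hs
    exact g3 s' hs'

/-- the test for the vertices `w, w + 1, ...` -/
def chkVs (n k : ℕ) (S : ℤ) (box : ℕ → ABox) (lab : ℕ → ℕ → ℕ) (pos : ℕ → Pt) (fold : ℕ → ℕ)
    (side : ℕ → Bool) (T : List (ST ℕ)) : ℕ → List VCert → Bool
  | _, [] => true
  | w, c :: cs => chkV n k S box lab pos fold side T w c &&
      chkVs n k S box lab pos fold side T (w + 1) cs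

theorem chkVs_spec {n k : ℕ} {S : ℤ} {box : ℕ → ABox} {lab : ℕ → ℕ → ℕ} {pos : ℕ → Pt}
    {fold : ℕ → ℕ} {side : ℕ → Bool} {T : List (ST ℕ)} {w : ℕ} {cs : List VCert}
    (h : chkVs n k S box lab pos fold side T w cs = true) {v : ℕ} (h1 : w ≤ v)
    (h2 : v < w + cs.length) : ∃ c, chkV n k S box lab pos fold side T v c = true := by
  induction cs generalizing w with
  | nil =>
    rw [List.length_nil] at h2
    omega
  | cons c cs ih =>
    rw [chkVs, Bool.and_eq_true] at h
    by_cases hv : v = w
    · exact ⟨c, by rw [hv]; exact h.1⟩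
    · refine ih h.2 (by omega) ?_
      rw [List.length_cons] at h2
      omega

/-- **All fans.** -/
theorem fans_of_chk {n : ℕ} [NeZero n] {T : List (ST ℕ)} (hI : chkIncr n T = true)
    (hC : Comb (TF n T)) {k : ℕ} {rels : List (ℕ × ℕ × ℕ)} {bds : List ℕ} {box : ℕ → ABox} {S : ℤ}
    (R : RealPoint k rels bds box (S : ℝ)) (hS : 0 < S) (lab : ℕ → ℕ → ℕ) (pos : ℕ → Pt)
    (fold : ℕ → ℕ) (side : ℕ → Bool)
    (h : ∀ v < n, ∃ c, chkV n k S box lab pos fold side T v c = true) (w : Fin n) :
    IsFan (link ((TF n T).map orient) w) (pW (fun u u' => R.A (lab u u'))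
      (fun u => (pos u).val) (fun v : Fin n => fold v.1) (fun v => side v.1) w) := by
  obtain ⟨c, hc⟩ := h w.1 w.2
  exact fanW hI hC R hS lab pos fold side w c hc

/-! ### the same with literal links -/

/-- the test for one vertex, with a list `L` which is a permutation of the link -/
def chkVL (n k : ℕ) (S : ℤ) (box : ℕ → ABox) (lab : ℕ → ℕ → ℕ) (pos : ℕ → Pt) (fold : ℕ → ℕ)
    (side : ℕ → Bool) (L : List (ℕ × ℕ × ℕ)) (w : ℕ) (c : VCert) : Bool :=
  decide (c.p = pos (fold w)) && decide (0 < c.p.d) &&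
    c.nbrs.all (fun e => e.ok k S box c.p && e.fit n lab pos fold side w) &&
    checkGeo L (c.nbrs.map fun e => (e.code, e.b)) c.y

theorem fanWL {n : ℕ} [NeZero n] {T : List (ST ℕ)} (hI : chkIncr n T = true)
    (hC : Comb (TF n T)) {k : ℕ} {rels : List (ℕ × ℕ × ℕ)} {bds : List ℕ} {box : ℕ → ABox} {S : ℤ}
    (R : RealPoint k rels bds box (S : ℝ)) (hS : 0 < S) (lab : ℕ → ℕ → ℕ) (pos : ℕ → Pt)
    (fold : ℕ → ℕ) (side : ℕ → Bool) (w : Fin n) (c : VCert) (L : List (ℕ × ℕ × ℕ))
    (hL : (linkN w.1 T).Perm L) (h : chkVL n k S box lab pos fold side L w.1 c = true) :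
    IsFan (link ((TF n T).map orient) w) (pW (fun u u' => R.A (lab u u'))
      (fun u => (pos u).val) (fun v : Fin n => fold v.1) (fun v => side v.1) w) := by
  unfold chkVL at h
  simp only [Bool.and_eq_true, decide_eq_true_eq, List.all_eq_true] at h
  obtain ⟨⟨⟨hp, hd⟩, hN⟩, hG⟩ := h
  obtain ⟨q, hq⟩ : ∃ q : Fin n → E3, q = pW (fun u u' => R.A (lab u u'))
      (fun u => (pos u).val) (fun v : Fin n => fold v.1) (fun v => side v.1) w := ⟨_, rfl⟩
  rw [← hq]
  have hNb : ∀ e ∈ c.nbrs.map (fun e => (e.code, e.b)),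
      BVec.PMem ((fun i => q (Fin.ofNat n i)) e.1) e.2 := by
    intro e' he'
    obtain ⟨e, he, rfl⟩ := List.mem_map.1 he'
    obtain ⟨h1, h2⟩ := hN e he
    unfold Nbr.fit at h2
    simp only [Bool.and_eq_true, decide_eq_true_eq, beq_iff_eq] at h2
    obtain ⟨⟨⟨h3, h4⟩, h5⟩, h6⟩ := h2
    have h3 : e.code < n := Nat.le_of_ble_eq_true h3
    have h4 : e.let' = lab (fold w.1) (fold e.code) := Nat.eq_of_beq_eq_true h4
    have hv : (Fin.ofNat n e.code).1 = e.code := by
      rw [Fin.val_ofNat, Nat.mod_eq_of_lt h3]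
    have e1 : q (Fin.ofNat n e.code) = e.val R.A c.p := by
      rw [hq]
      simp only [pW, pN, Nbr.val, hv, hp]
      rw [h6, ← h4, ← h5]
    simp only [e1]
    exact Nbr.ok_sound R hS hd h1
  obtain ⟨g1, y, t, L', hL', g2, g3⟩ := checkGeo_sound (p := fun i => q (Fin.ofNat n i)) hNb hG
  obtain ⟨ks, -, hks⟩ := hC.pairs
  have hperm : (L.map (mapTri (Fin.ofNat n))).Perm (link ((TF n T).map orient) w) := by
    rw [linkN_spec hI]
    exact (hL.symm).map _
  refine IsFan.perm ?_ hperm
  have hcl := closed_of_pairs hks w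
  have hfm := hperm.flatMap_right triEdges
  refine ⟨?_, ((hfm.map _).trans hcl).trans hfm.symm, ?_⟩
  · intro t ht
    obtain ⟨s, hs, rfl⟩ := List.mem_map.1 ht
    exact g1 s hs
  · rw [hL']
    refine ⟨y, mapTri (Fin.ofNat n) t, L'.map (mapTri (Fin.ofNat n)), rfl, g2, ?_⟩
    intro s hs
    obtain ⟨s', hs', rfl⟩ := List.mem_map.1 hs
    exact g3 s' hs'

/-- the test for the vertices `w, w + 1, ...`, with literal links -/
def chkVLs (n k : ℕ) (S : ℤ) (box : ℕ → ABox) (lab : ℕ → ℕ → ℕ) (pos : ℕ → Pt) (fold : ℕ → ℕ)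
    (side : ℕ → Bool) : ℕ → List (List (ℕ × ℕ × ℕ) × VCert) → Bool
  | _, [] => true
  | w, c :: cs => chkVL n k S box lab pos fold side c.1 w c.2 &&
      chkVLs n k S box lab pos fold side (w + 1) cs

theorem chkVLs_spec {n k : ℕ} {S : ℤ} {box : ℕ → ABox} {lab : ℕ → ℕ → ℕ} {pos : ℕ → Pt}
    {fold : ℕ → ℕ} {side : ℕ → Bool} {w : ℕ} {cs : List (List (ℕ × ℕ × ℕ) × VCert)}
    (h : chkVLs n k S box lab pos fold side w cs = true) {v : ℕ} {c : List (ℕ × ℕ × ℕ) × VCert}
    (hv : cs[v]? = some c) : chkVL n k S box lab pos fold side c.1 (w + v) c.2 = true := by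
  induction cs generalizing w v with
  | nil => simp at hv
  | cons c' cs ih =>
    rw [chkVLs, Bool.and_eq_true] at h
    cases v with
    | zero =>
      rw [List.getElem?_cons_zero, Option.some.injEq] at hv
      rw [← hv]
      exact h.1
    | succ v =>
      rw [List.getElem?_cons_succ] at hv
      have h1 := ih h.2 hv
      rwa [show w + (v + 1) = w + 1 + v by omega]

end Pool.CX
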