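import Pool.Agent.Helper47.CX.Iface
import Pool.Agent.Helper1.CX.Fan

/-!
# Project CX (MP_f22a19_gt): integer boxes for the positions

The boxes of the letters (`ABox`, coefficients multiplied by the integer `S`) and the rational
positions of the vertices in their own charts give integer boxes for `pN ρ P u u'` and
`pW ρ P fold side w w'`, up to a positive factor for each vector.
-/

set_option autoImplicit false

namespace Pool.CX

open Pool.Agent.Helper66.AF
open Pool.Agent.Helper1.CX (Ball BVec Box)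

/-- sum of two intervals -/
def iadd (I J : ℤ × ℤ) : ℤ × ℤ := (I.1 + J.1, I.2 + J.2)

/-- multiple of an interval -/
def ismul : ℤ → ℤ × ℤ → ℤ × ℤ
  | Int.ofNat m, I => (Int.ofNat m * I.1, Int.ofNat m * I.2)
  | Int.negSucc m, I => (Int.negSucc m * I.2, Int.negSucc m * I.1)

/-- the negative of an interval -/
def ineg (I : ℤ × ℤ) : ℤ × ℤ := (-I.2, -I.1)

/-- translate of an interval -/
def ishift (m : ℤ) (I : ℤ × ℤ) : ℤ × ℤ := (m + I.1, m + I.2)

theorem InI.add {I J : ℤ × ℤ} {x y : ℝ} (hx : InI I x) (hy : InI J y) :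
    InI (iadd I J) (x + y) := by
  obtain ⟨h1, h2⟩ := hx
  obtain ⟨h3, h4⟩ := hy
  constructor
  · simp only [iadd, Int.cast_add]
    linarith
  · simp only [iadd, Int.cast_add]
    linarith

theorem InI.smul {I : ℤ × ℤ} {x : ℝ} (m : ℤ) (hx : InI I x) : InI (ismul m I) (m * x) := by
  obtain ⟨h1, h2⟩ := hx
  match m with
  | Int.ofNat m =>
    have hm : (0 : ℝ) ≤ ((Int.ofNat m : ℤ) : ℝ) := Int.cast_nonneg (Int.natCast_nonneg m)
    constructor
    · simp only [ismul, Int.cast_mul]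
      exact mul_le_mul_of_nonneg_left h1 hm
    · simp only [ismul, Int.cast_mul]
      exact mul_le_mul_of_nonneg_left h2 hm
  | Int.negSucc m =>
    have hm : ((Int.negSucc m : ℤ) : ℝ) ≤ 0 := Int.cast_nonpos.2 (Int.negSucc_lt_zero m).le
    constructor
    · simp only [ismul, Int.cast_mul]
      exact mul_le_mul_of_nonpos_left h2 hm
    · simp only [ismul, Int.cast_mul]
      exact mul_le_mul_of_nonpos_left h1 hm

theorem InI.neg {I : ℤ × ℤ} {x : ℝ} (hx : InI I x) : InI (ineg I) (-x) := by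
  obtain ⟨h1, h2⟩ := hx
  constructor
  · simp only [ineg, Int.cast_neg]
    linarith
  · simp only [ineg, Int.cast_neg]
    linarith

theorem InI.shift {I : ℤ × ℤ} {x : ℝ} (m : ℤ) (hx : InI I x) : InI (ishift m I) (m + x) := by
  obtain ⟨h1, h2⟩ := hx
  constructor
  · simp only [ishift, Int.cast_add]
    linarith
  · simp only [ishift, Int.cast_add]
    linarith

/-- the point `(x, y, z) / d` -/
structure Pt where
  x : ℤ
  y : ℤ
  z : ℤ
  d : ℤ
  deriving DecidableEq

/-- the point `(x, y, z) / d` -/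
noncomputable def Pt.val (p : Pt) : E3 := ![(p.x : ℝ) / p.d, (p.y : ℝ) / p.d, (p.z : ℝ) / p.d]

/-- the box with the given intervals -/
def mkBox (I J K : ℤ × ℤ) : Box := ⟨I.1, I.2, J.1, J.2, K.1, K.2⟩

/-- interval for the value of an affine function at a point, multiplied by the denominator -/
def Row.lin (R : Row) (q : Pt) : ℤ × ℤ :=
  iadd (iadd (ismul q.x R.a) (ismul q.y R.b)) (iadd (ismul q.z R.c) (ismul q.d R.t))

theorem Row.lin_mem {R : Row} {s : ℝ} {f : E3 → ℝ} (hR : R.Mem s f) {q : Pt} (hq : 0 < q.d) :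
    InI (R.lin q) (s * (q.d * f q.val)) := by
  obtain ⟨a, b, c, t, ha, hb, hc, ht, hf⟩ := hR
  have hd : (q.d : ℝ) ≠ 0 := by exact_mod_cast hq.ne'
  have h1 : s * (q.d * f q.val) =
      ((q.x : ℝ) * (s * a) + (q.y : ℝ) * (s * b)) + ((q.z : ℝ) * (s * c) + (q.d : ℝ) * (s * t)) := by
    rw [hf]
    simp only [Pt.val, Matrix.cons_val_zero, Matrix.cons_val_one, Matrix.cons_val]
    field_simp
    ring
  rw [h1]
  exact ((ha.smul q.x).add (hb.smul q.y)).add ((hc.smul q.z).add (ht.smul q.d))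

/-- a box for `A q - p`; `B` is the box of `A`, multiplied by `S` -/
def boxN (S : ℤ) (B : ABox) (p q : Pt) : Box :=
  if p.d = q.d then
    mkBox (ishift (-(S * p.x)) (B.r0.lin q)) (ishift (-(S * p.y)) (B.r1.lin q))
      (ishift (-(S * p.z)) (B.r2.lin q))
  else
    mkBox (ishift (-(S * q.d * p.x)) (ismul p.d (B.r0.lin q)))
      (ishift (-(S * q.d * p.y)) (ismul p.d (B.r1.lin q)))
      (ishift (-(S * q.d * p.z)) (ismul p.d (B.r2.lin q)))

theorem boxN_mem {S : ℤ} (hS : 0 < S) {B : ABox} {A : Aff3} (hA : B.Mem (S : ℝ) A) {p q : Pt}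
    (hp : 0 < p.d) (hq : 0 < q.d) : (boxN S B p q).Mem (A q.val - p.val) := by
  obtain ⟨h0, h1, h2⟩ := hA
  have hS' : (0 : ℝ) < S := by exact_mod_cast hS
  have hp' : (0 : ℝ) < p.d := by exact_mod_cast hp
  have hq' : (0 : ℝ) < q.d := by exact_mod_cast hq
  have v0 : p.val 0 = (p.x : ℝ) / p.d := rfl
  have v1 : p.val 1 = (p.y : ℝ) / p.d := rfl
  have v2 : p.val 2 = (p.z : ℝ) / p.d := rfl
  unfold boxN
  split_ifs with hpq
  · refine ⟨S * q.d, mul_pos hS' hq', ?_, ?_, ?_⟩
    · have e : (S : ℝ) * q.d * ((A q.val - p.val) 0) =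
          ((-(S * p.x) : ℤ) : ℝ) + S * (q.d * A q.val 0) := by
        rw [Pi.sub_apply, v0, hpq]
        push_cast
        field_simp
        ring
      rw [e]
      exact (Row.lin_mem h0 hq).shift _
    · have e : (S : ℝ) * q.d * ((A q.val - p.val) 1) =
          ((-(S * p.y) : ℤ) : ℝ) + S * (q.d * A q.val 1) := by
        rw [Pi.sub_apply, v1, hpq]
        push_cast
        field_simp
        ring
      rw [e]
      exact (Row.lin_mem h1 hq).shift _
    · have e : (S : ℝ) * q.d * ((A q.val - p.val) 2) =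
          ((-(S * p.z) : ℤ) : ℝ) + S * (q.d * A q.val 2) := by
        rw [Pi.sub_apply, v2, hpq]
        push_cast
        field_simp
        ring
      rw [e]
      exact (Row.lin_mem h2 hq).shift _
  · refine ⟨S * q.d * p.d, mul_pos (mul_pos hS' hq') hp', ?_, ?_, ?_⟩
    · have e : (S : ℝ) * q.d * p.d * ((A q.val - p.val) 0) =
          ((-(S * q.d * p.x) : ℤ) : ℝ) + p.d * (S * (q.d * A q.val 0)) := by
        rw [Pi.sub_apply, v0]
        push_cast
        field_simp
        ring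
      rw [e]
      exact ((Row.lin_mem h0 hq).smul _).shift _
    · have e : (S : ℝ) * q.d * p.d * ((A q.val - p.val) 1) =
          ((-(S * q.d * p.y) : ℤ) : ℝ) + p.d * (S * (q.d * A q.val 1)) := by
        rw [Pi.sub_apply, v1]
        push_cast
        field_simp
        ring
      rw [e]
      exact ((Row.lin_mem h1 hq).smul _).shift _
    · have e : (S : ℝ) * q.d * p.d * ((A q.val - p.val) 2) =
          ((-(S * q.d * p.z) : ℤ) : ℝ) + p.d * (S * (q.d * A q.val 2)) := by
        rw [Pi.sub_apply, v2]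
        push_cast
        field_simp
        ring
      rw [e]
      exact ((Row.lin_mem h2 hq).smul _).shift _

/-- the reflected box -/
def boxSig (B : Box) : Box := ⟨B.x0, B.x1, B.y0, B.y1, -B.z1, -B.z0⟩

theorem boxSig_mem {B : Box} {p : E3} (h : B.Mem p) : (boxSig B).Mem (sigmaL p) := by
  obtain ⟨c, hc, h0, h1, h2⟩ := h
  refine ⟨c, hc, h0, h1, ?_⟩
  have e : c * (sigmaL p) 2 = -(c * p 2) := by
    rw [sigmaL_apply]
    simp
  rw [e]
  simp only [boxSig]
  push_cast
  constructor <;> linarith [h2.1, h2.2]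

section Double

variable {W : Type*}

/-- a box for the position of `w'` in the chart of `w` -/
def boxW (S : ℤ) (box : ℕ → ABox) (lab : ℕ → ℕ → ℕ) (pos : ℕ → Pt) (fold : W → ℕ)
    (side : W → Bool) (w w' : W) : Box :=
  if side w || side w' then
    boxSig (boxN S (box (lab (fold w) (fold w'))) (pos (fold w)) (pos (fold w')))
  else boxN S (box (lab (fold w) (fold w'))) (pos (fold w)) (pos (fold w'))

theorem boxN_mem_pN {k : ℕ} {rels : List (ℕ × ℕ × ℕ)} {bds : List ℕ} {box : ℕ → ABox} {S : ℤ}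
    (R : RealPoint k rels bds box (S : ℝ)) (hS : 0 < S) (lab : ℕ → ℕ → ℕ) (pos : ℕ → Pt)
    {u u' : ℕ} (hl : lab u u' < k) (hu : 0 < (pos u).d) (hu' : 0 < (pos u').d) :
    (boxN S (box (lab u u')) (pos u) (pos u')).Mem
      (pN (fun u u' => R.A (lab u u')) (fun u => (pos u).val) u u') :=
  boxN_mem hS (R.mem _ hl) hu hu'

theorem boxW_mem {k : ℕ} {rels : List (ℕ × ℕ × ℕ)} {bds : List ℕ} {box : ℕ → ABox} {S : ℤ}
    (R : RealPoint k rels bds box (S : ℝ)) (hS : 0 < S) (lab : ℕ → ℕ → ℕ) (pos : ℕ → Pt)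
    (fold : W → ℕ) (side : W → Bool) {w w' : W} (hl : lab (fold w) (fold w') < k)
    (hw : 0 < (pos (fold w)).d) (hw' : 0 < (pos (fold w')).d) :
    (boxW S box lab pos fold side w w').Mem
      (pW (fun u u' => R.A (lab u u')) (fun u => (pos u).val) fold side w w') := by
  have h := boxN_mem_pN R hS lab pos hl hw hw'
  unfold boxW pW
  split_ifs
  · exact boxSig_mem h
  · exact h

end Double

/-! ### literal neighbour lists -/

/-- the box `B` is contained in the ball vector `b`, blown up by the factor `m` -/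
def boxIn (m : ℕ) (B : Box) (b : BVec) : Bool :=
  decide (m * (b.x.c - b.x.r) ≤ B.x0) && decide (B.x1 ≤ m * (b.x.c + b.x.r)) &&
  (decide (m * (b.y.c - b.y.r) ≤ B.y0) && decide (B.y1 ≤ m * (b.y.c + b.y.r))) &&
  (decide (m * (b.z.c - b.z.r) ≤ B.z0) && decide (B.z1 ≤ m * (b.z.c + b.z.r)))

theorem ball_of_mul {m c : ℝ} {x y : ℝ} {b : Ball} {lo hi : ℤ} (hm : 0 < m)
    (h1 : m * ((b.c : ℝ) - b.r) ≤ lo) (h2 : (hi : ℝ) ≤ m * ((b.c : ℝ) + b.r))
    (h3 : (lo : ℝ) ≤ c * x) (h4 : c * x ≤ hi) (hy : y = c / m) : Ball.Mem y x b := by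
  unfold Ball.Mem
  have e : x * y = (c * x) / m := by
    rw [hy]
    ring
  rw [e, abs_le]
  have h5 : (b.c : ℝ) - b.r ≤ (c * x) / m := by
    rw [le_div_iff₀ hm]
    linarith
  have h6 : (c * x) / m ≤ (b.c : ℝ) + b.r := by
    rw [div_le_iff₀ hm]
    linarith
  constructor <;> linarith

theorem boxIn_sound {m : ℕ} (hm : 0 < m) {B : Box} {b : BVec} (h : boxIn m B b = true) {v : E3}
    (hv : B.Mem v) : BVec.PMem v b := by
  unfold boxIn at h
  simp only [Bool.and_eq_true, decide_eq_true_eq] at h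
  obtain ⟨⟨⟨h1, h2⟩, h3, h4⟩, h5, h6⟩ := h
  obtain ⟨c, hc, ⟨v1, v2⟩, ⟨v3, v4⟩, v5, v6⟩ := hv
  have hm' : (0 : ℝ) < m := Nat.cast_pos.2 hm
  refine ⟨c / m, div_pos hc hm', ?_, ?_, ?_⟩
  · exact ball_of_mul hm' (by exact_mod_cast h1) (by exact_mod_cast h2) v1 v2 rfl
  · exact ball_of_mul hm' (by exact_mod_cast h3) (by exact_mod_cast h4) v3 v4 rfl
  · exact ball_of_mul hm' (by exact_mod_cast h5) (by exact_mod_cast h6) v5 v6 rfl

/-- a neighbour of a vertex: code of the neighbour, index of the letter, position of the neighbour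
in its own chart, reflected or not, blow up factor, ball vector -/
structure Nbr where
  code : ℕ
  let' : ℕ
  pos : Pt
  sig : Bool
  m : ℕ
  b : BVec

/-- the exact position which belongs to a neighbour -/
noncomputable def Nbr.val (A : ℕ → Aff3) (p : Pt) (e : Nbr) : E3 :=
  if e.sig then sigmaL (A e.let' e.pos.val - p.val) else A e.let' e.pos.val - p.val

/-- the check for one neighbour of a vertex in the position `p` -/
def Nbr.ok (k : ℕ) (S : ℤ) (box : ℕ → ABox) (p : Pt) (e : Nbr) : Bool :=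
  Nat.ble (e.let' + 1) k && decide (0 < e.pos.d) && Nat.ble 1 e.m &&
    boxIn e.m (bif e.sig then boxSig (boxN S (box e.let') p e.pos)
      else boxN S (box e.let') p e.pos) e.b

theorem Nbr.ok_sound {k : ℕ} {rels : List (ℕ × ℕ × ℕ)} {bds : List ℕ} {box : ℕ → ABox} {S : ℤ}
    (R : RealPoint k rels bds box (S : ℝ)) (hS : 0 < S) {p : Pt} (hp : 0 < p.d) {e : Nbr}
    (h : e.ok k S box p = true) : BVec.PMem (e.val R.A p) e.b := by
  unfold Nbr.ok at h
  simp only [Bool.and_eq_true, decide_eq_true_eq] at h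
  obtain ⟨⟨⟨h1, h2⟩, h3⟩, h4⟩ := h
  have hk : e.let' < k := Nat.le_of_ble_eq_true h1
  have hm : 0 < e.m := Nat.le_of_ble_eq_true h3
  have hb := boxN_mem hS (R.mem _ hk) hp h2
  unfold Nbr.val
  cases hs : e.sig with
  | true =>
    rw [hs] at h4
    rw [if_pos rfl]
    exact boxIn_sound hm h4 (boxSig_mem hb)
  | false =>
    rw [hs] at h4
    rw [if_neg Bool.false_ne_true]
    exact boxIn_sound hm h4 hb

/-- **Fan from a neighbour list.** -/
theorem fan_of_nbrs {k : ℕ} {rels : List (ℕ × ℕ × ℕ)} {bds : List ℕ} {box : ℕ → ABox} {S : ℤ}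
    (R : RealPoint k rels bds box (S : ℝ)) (hS : 0 < S) {p : Pt} (hp : 0 < p.d) (N : List Nbr)
    (hN : N.all (Nbr.ok k S box p) = true) (q : ℕ → E3) (hq : ∀ e ∈ N, q e.code = e.val R.A p)
    (L : List (ℕ × ℕ × ℕ)) (y : ℤ × ℤ × ℤ)
    (hL : Pool.Agent.Helper1.CX.checkFan L (N.map fun e => (e.code, e.b)) y = true) :
    IsFan L q := by
  refine Pool.Agent.Helper1.CX.checkFan_sound hL ?_
  intro e he
  obtain ⟨e', he', rfl⟩ := List.mem_map.1 he
  rw [hq e' he']
  exact Nbr.ok_sound R hS hp (List.all_eq_true.1 hN e' he')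

end Pool.CX
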