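import Pool.Agent.Helper45.CX.FanW
import Pool.Agent.Helper69.CX.Stars

/-!
# Project CX (MP_f22a19_gt): the fans of all vertices from literal stars

The certificate of a vertex contains its star as a literal list of facets (with their indices in the
packed table of facets). The stars are complete because the sum of their lengths is `4 |T|`.
-/

set_option autoImplicit false

namespace Pool.CX

open Pool.Agent.Helper66.AF Helper69.CX

/-- the certificate of a vertex with its star -/
structure SCert where
  star : List (ℕ × ST ℕ)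
  cert : VCert

/-- the test for one vertex; `N` is the number of facets -/
def chkS (n k : ℕ) (S : ℤ) (box : ℕ → ABox) (lab : ℕ → ℕ → ℕ) (pos : ℕ → Pt) (fold : ℕ → ℕ)
    (side : ℕ → Bool) (E B ftab N : ℕ) (w : ℕ) (c : SCert) : Bool :=
  starOK E B ftab N w 0 c.star &&
    chkVL n k S box lab pos fold side (linkN w (c.star.map Prod.snd)) w c.cert

/-- the test for the vertices `w, w + 1, ...` -/
def chkSs (n k : ℕ) (S : ℤ) (box : ℕ → ABox) (lab : ℕ → ℕ → ℕ) (pos : ℕ → Pt) (fold : ℕ → ℕ)
    (side : ℕ → Bool) (E B ftab N : ℕ) : ℕ → List SCert → Bool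
  | _, [] => true
  | w, c :: cs => chkS n k S box lab pos fold side E B ftab N w c &&
      force (Nat.succ w) fun w' => chkSs n k S box lab pos fold side E B ftab N w' cs

/-- the sum of the lengths of the stars -/
def starLen : List SCert → ℕ
  | [] => 0
  | c :: cs => Nat.add c.star.length (starLen cs)

theorem starLen_eq (l : List SCert) : starLen l = (l.map fun c => c.star.length).sum := by
  induction l with
  | nil => rfl
  | cons c l ih =>
    rw [List.map_cons, List.sum_cons, ← ih]
    rfl

theorem chkSs_spec {n k : ℕ} {S : ℤ} {box : ℕ → ABox} {lab : ℕ → ℕ → ℕ} {pos : ℕ → Pt}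
    {fold : ℕ → ℕ} {side : ℕ → Bool} {E B ftab N w : ℕ} {cs : List SCert}
    (h : chkSs n k S box lab pos fold side E B ftab N w cs = true) (i : ℕ) (hi : i < cs.length) :
    chkS n k S box lab pos fold side E B ftab N (w + i) cs[i] = true := by
  induction cs generalizing w i with
  | nil => simp at hi
  | cons c cs ih =>
    rw [chkSs, force_eq, Bool.and_eq_true] at h
    cases i with
    | zero => exact h.1
    | succ i =>
      have h1 := ih h.2 i (by simpa using hi)
      rwa [List.getElem_cons_succ, show w + (i + 1) = Nat.succ w + i by omega]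

/-- **All fans, from the literal stars.** -/
theorem fans_of_stars {n : ℕ} [NeZero n] {T : List (ST ℕ)} {E B ftab : ℕ} (hn : n ≤ B)
    (hI : chkIncr n T = true) (hT : chkTab E B ftab 0 T = true)
    (hC : Comb (TF n T)) {k : ℕ} {rels : List (ℕ × ℕ × ℕ)} {bds : List ℕ} {box : ℕ → ABox} {S : ℤ}
    (R : RealPoint k rels bds box (S : ℝ)) (hS : 0 < S) (lab : ℕ → ℕ → ℕ) (pos : ℕ → Pt)
    (fold : ℕ → ℕ) (side : ℕ → Bool) (cs : ℕ → SCert)
    (hok : ∀ w < n, chkS n k S box lab pos fold side E B ftab T.length w (cs w) = true)
    (hsum : ∑ w ∈ Finset.range n, (cs w).star.length = 4 * T.length) (w : Fin n) :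
    IsFan (link ((TF n T).map orient) w) (pW (fun u u' => R.A (lab u u'))
      (fun u => (pos u).val) (fun v : Fin n => fold v.1) (fun v => side v.1) w) := by
  have hok' : ∀ w < n, starOK E B ftab T.length w 0 (cs w).star = true ∧
      chkVL n k S box lab pos fold side (linkN w ((cs w).star.map Prod.snd)) w (cs w).cert
        = true := by
    intro w hw
    have h := hok w hw
    unfold chkS at h
    rwa [Bool.and_eq_true] at h
  have hL := link_of_stars hn hI hT (fun w => (cs w).star) (fun w hw => (hok' w hw).1) hsum
  exact fanWL hI hC R hS lab pos fold side w (cs w.1).cert _ (hL w.1 w.2) (hok' w.1 w.2).2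

/-! ### chunks -/

/-- every chunk is correct: the `j`-th chunk starts where the previous chunks end -/
def ChunksOK (n k : ℕ) (S : ℤ) (box : ℕ → ABox) (lab : ℕ → ℕ → ℕ) (pos : ℕ → Pt) (fold : ℕ → ℕ)
    (side : ℕ → Bool) (E B ftab N : ℕ) : ℕ → List (List SCert) → Prop
  | _, [] => True
  | w, cs :: l => chkSs n k S box lab pos fold side E B ftab N w cs = true ∧
      ChunksOK n k S box lab pos fold side E B ftab N (w + cs.length) l

theorem ChunksOK.cons {n k : ℕ} {S : ℤ} {box : ℕ → ABox} {lab : ℕ → ℕ → ℕ} {pos : ℕ → Pt}
    {fold : ℕ → ℕ} {side : ℕ → Bool} {E B ftab N w : ℕ} {cs : List SCert} {l : List (List SCert)}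
    (h : chkSs n k S box lab pos fold side E B ftab N w cs = true) {w' : ℕ}
    (hw : w + cs.length = w')
    (hl : ChunksOK n k S box lab pos fold side E B ftab N w' l) :
    ChunksOK n k S box lab pos fold side E B ftab N w (cs :: l) :=
  ⟨h, by rw [hw]; exact hl⟩

theorem ChunksOK.nil {n k : ℕ} {S : ℤ} {box : ℕ → ABox} {lab : ℕ → ℕ → ℕ} {pos : ℕ → Pt}
    {fold : ℕ → ℕ} {side : ℕ → Bool} {E B ftab N w : ℕ} :
    ChunksOK n k S box lab pos fold side E B ftab N w [] := trivial

theorem ChunksOK.flatten {n k : ℕ} {S : ℤ} {box : ℕ → ABox} {lab : ℕ → ℕ → ℕ} {pos : ℕ → Pt}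
    {fold : ℕ → ℕ} {side : ℕ → Bool} {E B ftab N : ℕ} (l : List (List SCert)) (w : ℕ)
    (h : ChunksOK n k S box lab pos fold side E B ftab N w l) (i : ℕ)
    (hi : i < l.flatten.length) :
    chkS n k S box lab pos fold side E B ftab N (w + i) l.flatten[i] = true := by
  induction l generalizing w i with
  | nil => simp at hi
  | cons cs l ih =>
    obtain ⟨h1, h2⟩ := h
    by_cases hic : i < cs.length
    · have e : (cs :: l).flatten[i] = cs[i] := by
        simp only [List.flatten_cons]
        exact List.getElem_append_left hic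
      rw [e]
      exact chkSs_spec h1 i hic
    · have hi' : i - cs.length < l.flatten.length := by
        rw [List.flatten_cons, List.length_append] at hi
        omega
      have e : (cs :: l).flatten[i] = l.flatten[i - cs.length] := by
        simp only [List.flatten_cons]
        exact List.getElem_append_right (by omega)
      rw [e]
      have := ih (w + cs.length) h2 (i - cs.length) hi'
      rwa [show w + cs.length + (i - cs.length) = w + i by omega] at this

theorem sum_range_getD (l : List SCert) (d : SCert) :
    ∑ w ∈ Finset.range l.length, (l.getD w d).star.length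
      = (l.map fun c => c.star.length).sum := by
  induction l with
  | nil => simp
  | cons c l ih =>
    rw [List.length_cons, Finset.sum_range_succ', List.map_cons, List.sum_cons, ← ih]
    simp only [List.getD_cons_succ, List.getD_cons_zero]
    omega

/-- **All fans, from chunks of certificates.** -/
theorem fans_of_chunks {n : ℕ} [NeZero n] {T : List (ST ℕ)} {E B ftab : ℕ} (hn : n ≤ B)
    (hI : chkIncr n T = true) (hT : chkTab E B ftab 0 T = true)
    (hC : Comb (TF n T)) {k : ℕ} {rels : List (ℕ × ℕ × ℕ)} {bds : List ℕ} {box : ℕ → ABox} {S : ℤ}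
    (R : RealPoint k rels bds box (S : ℝ)) (hS : 0 < S) (lab : ℕ → ℕ → ℕ) (pos : ℕ → Pt)
    (fold : ℕ → ℕ) (side : ℕ → Bool) {N : ℕ} (hN : T.length = N) (l : List (List SCert))
    (hok : ChunksOK n k S box lab pos fold side E B ftab N 0 l)
    (hlen : (l.map List.length).sum = n) (hsum : (l.map starLen).sum = 4 * N) (w : Fin n) :
    IsFan (link ((TF n T).map orient) w) (pW (fun u u' => R.A (lab u u'))
      (fun u => (pos u).val) (fun v : Fin n => fold v.1) (fun v => side v.1) w) := by
  have hfl : l.flatten.length = n := by rw [List.length_flatten, hlen]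
  obtain ⟨d⟩ : Nonempty SCert := ⟨⟨[], ⟨⟨0, 0, 0, 0⟩, [], (0, 0, 0)⟩⟩⟩
  refine fans_of_stars hn hI hT hC R hS lab pos fold side (fun w => l.flatten.getD w d) ?_ ?_ w
  · intro w hw
    have hw' : w < l.flatten.length := by omega
    have h := hok.flatten l 0 w hw'
    rw [Nat.zero_add] at h
    rw [List.getD_eq_getElem _ _ hw', hN]
    exact h
  · have h := sum_range_getD l.flatten d
    rw [hfl] at h
    rw [h, List.map_flatten, List.sum_flatten, List.map_map, hN, ← hsum]
    congr 1
    apply List.map_congr_left
    intro cs _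
    rw [starLen_eq]
    rfl

end Pool.CX
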